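import Pool.Agent.Helper39_C4N.Ra2

/-!
# RA: the round up to the walks (from EUL, SMP, BASE, MRK, LIF, WALKSM)
-/

set_option autoImplicit false
set_option linter.unusedSectionVars false

open scoped BigOperators Classical

noncomputable section

namespace Pool.Agent.C4N.H39

open Finset
open Pool.Agent.C4W (outN inN NReg)
open Pool.Agent.C4N.H7
open Pool.Agent.C4K.H82 (chg WALKSMStmt)

theorem ra (hEUL : EULStmt) (hSMP : SMPStmt) (hBASE : BASEStmt) (hMRK : MRKStmt)
    (hLIF : LIFStmt) (hW : WALKSMStmt) : RAStmt := by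
  intro L c hc hc'
  obtain ⟨C1, hSMP'⟩ := hSMP 2 L c hc hc'
  obtain ⟨k1, hB'⟩ := hBASE (c / 3) (by linarith) (by linarith)
  obtain ⟨C2, hM'⟩ := hMRK 2 L (c / 3) (c / 7) (by linarith) (by linarith) (by linarith)
    (by linarith)
  refine ⟨C1 + C2, ?_⟩
  intro l hl δ hδ
  obtain ⟨B, k5, hL'⟩ := hLIF l (c / 7) hl (by linarith) (by linarith)
  obtain ⟨k2, C0, hW'⟩ := hW B
  obtain ⟨k3, hpr⟩ := prime_M
  obtain ⟨K1, hSMP''⟩ := hSMP' (δ / (4 * (L + 1))) (by positivity)
  obtain ⟨K2, hM''⟩ := hM' (δ / 4) (by linarith)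
  obtain ⟨K3, hrn⟩ := rn 2 L c δ hc hc' hδ
  obtain ⟨K4, hK4⟩ := exists_nat_ge k2
  obtain ⟨K5, hrn2⟩ := rn2 c hc hc'
  refine ⟨K1 + K2 + K3 + K4 + K5 + k1 + k3 + k5, ?_⟩
  intro K k s q t hK hk hs hq ht A Q hA hQ V _ R E hSt hER hEd
  have hN := hrn K k s (by omega) hk hs
  have hN2 := hrn2 K k s (by omega) hk hs
  have hs1 := hN.s1
  have hsK := hN.sK
  have hK1 : (1 : ℝ) ≤ K := by exact_mod_cast hN.K1
  have hkr : (k : ℝ) = K + 2 := by rw [hk]; push_cast; ring
  have hKk : (K : ℝ) ≤ k := by linarith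
  rcases isEmpty_or_nonempty V with hV | ⟨⟨x0⟩⟩
  · -- no vertices
    have e0 : ∀ (S : Finset V), S = ∅ := fun S => Finset.eq_empty_of_isEmpty S
    refine ⟨K - 11 * s, ⊥, fun _ _ => none, fun _ _ => none, fun _ _ => False, ∅, ∅,
      fun _ _ _ _ => 0, fun _ _ _ _ => 0, by omega, by omega, ?_, ?_, ?_, ?_⟩
    · refine ⟨fun u => (hV.false u).elim, fun u => (hV.false u).elim,
        fun u => (hV.false u).elim, fun u => (hV.false u).elim, fun _ u => (hV.false u).elim,
        fun _ u => (hV.false u).elim, fun _ _ u => (hV.false u).elim,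
        fun _ u => (hV.false u).elim, fun _ u => (hV.false u).elim, fun _ u => (hV.false u).elim,
        fun _ _ u => (hV.false u).elim, fun _ _ u => (hV.false u).elim,
        fun _ u => (hV.false u).elim, fun u => (hV.false u).elim, fun u => (hV.false u).elim,
        fun u => (hV.false u).elim, fun u => (hV.false u).elim, fun u => (hV.false u).elim,
        fun u => (hV.false u).elim, fun u => (hV.false u).elim, fun _ u => (hV.false u).elim,
        fun _ u => (hV.false u).elim, ?_, fun u => (hV.false u).elim,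
        fun u => (hV.false u).elim⟩
      exact ⟨fun _ _ u => (hV.false u).elim, fun _ u => (hV.false u).elim,
        fun _ _ u => (hV.false u).elim, fun _ _ u => (hV.false u).elim,
        fun _ _ u => (hV.false u).elim⟩
    · exact fun a x => (hV.false x).elim
    · exact fun x => (hV.false x).elim
    · exact fun x => (hV.false x).elim
  · obtain ⟨O, hO⟩ := hEUL V R
    obtain ⟨M, hMp, hMlo, hMhi⟩ := hpr k (by omega)
    have hP : Prm K 2 M k s := ⟨hk, hs, hMp, hMlo, hMhi⟩
    obtain ⟨ω, β, m, hBI, hopt, hct1, hE3, hE1⟩ :=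
      hSMP'' K M k s (by omega) hP A Q hA hQ V R E O hSt hER hEd hO
    have hk'0 : 0 ≤ (K : ℝ) - 40 * s := by
      have : (40 : ℝ) * s ≤ K := by exact_mod_cast hsK
      linarith
    obtain ⟨n, f, Z, Zc, hBO, hZQ⟩ := hB' k s M (by omega) hs hMp hMlo hMhi ((K : ℝ) - 40 * s) V R
      (Rf O s ω) (Og O s ω) β m (univ.filter fun u => dg R u ≠ 2 * K) hk'0 hBI
      (q0_le hN2 hopt)
    obtain ⟨hn1, hn2⟩ := n_bd hN (cb := c / 3) (by linarith) hMlo hMp.two_le hBI hBO.nn x0
    have hA' : 1 ≤ (K : ℝ) ^ (δ / (4 * (L + 1))) * A ^ L := by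
      have e1 : 1 ≤ (K : ℝ) ^ (δ / (4 * (L + 1))) := Real.one_le_rpow hK1 (by positivity)
      have e2 : 1 ≤ A ^ L := one_le_pow₀ hA
      nlinarith
    obtain ⟨X, hX⟩ : ∃ X : Finset V, X = (univ.filter fun u => dg R u ≠ 2 * K) ∪ Z := ⟨_, rfl⟩
    have hXs := s_sp' hN2 hBO hSt.sp
    have hXs2 := s_sp2' hN2 hBO hopt
    rw [← hX] at hXs hXs2
    obtain ⟨η, hg1, hg2, hmk, hm5, hmS, hct2, hE2, hE4, hbo, hbX⟩ :=
      hM'' K M k s (by omega) hP _ Q hA' hQ V R E O ω m n f Z X Zc hSt.c4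
        (fun v => ⟨hSt.lo v, hSt.hi v⟩) hER hEd hO hBO hn1 hn2 hct1 hXs hXs2
    have hnK : n ≤ K := by omega
    have hsub : ∀ i x y, f i x = some y → R.Adj x y := fun i x y h =>
      hBI.sub (x, y) (hBO.arc i x y h)
    have hor : ∀ i x y, f i x = some y → O x y := by
      intro i x y h
      rcases hBO.arc i x y h with h1 | ⟨g, h1⟩
      · exact h1.1
      · exact h1.1
    have hoR : ∀ x y, O x y → R.Adj x y := fun x y h => (hO.adj x y).2 (Or.inl h)
    have hTR : TT R s ω η ≤ R := fun _ _ h => h.1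
    have hdT : ∀ v, dg (TT R s ω η) v ≤ 100 * s := by
      intro v
      have h1 := TT_dg hO hBI hN.t4 v (hm5 v) (univ.filter fun u => (TT R s ω η).Adj v u)
        (fun u hu => (mem_filter.1 hu).2)
      rw [← dg_card] at h1
      exact_mod_cast h1
    have hdR : ∀ v, dg R v ≤ 3 * k := by
      intro v
      have := hSt.hi v
      omega
    have hk2 : k ≤ 2 * K := by
      have h1 := hN.k2
      exact_mod_cast h1
    -- the linear family
    obtain ⟨aY, aP, U, hU, a, hlinH, hrec, hlo⟩ := hL' k K s q t n (by omega) (by omega) hk2 hs hq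
      ht (by omega) V R (TT R s ω η) f (both s η f) X hTR hdR hdT hBO.inj hsub hbX
    -- WALKS
    obtain ⟨D, hout, hlin, hsw1, hsw2⟩ := hW' V R.Adj (pool (Og O s ω) f) n f
      (fun i => Mk s η f i) (k : ℝ)
      (((K : ℝ) - n) * s / K) ((k : ℝ) ^ (-0.48 : ℝ)) U a
      (by
        have h1 : (K4 : ℝ) ≤ K := by
          have : K4 ≤ K := by omega
          exact_mod_cast this
        linarith)
      (nh hN hn1 hn2) (c4f hSt.c4)
      (by
        rintro x y ⟨⟨g, hg⟩, -⟩
        exact hBI.sub (x, y) (Or.inr ⟨g, hg⟩))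
      hBO.inj
      (by
        intro i x y h
        exact ⟨hsub i x y h, fun hp => hp.2 i h⟩)
      hBO.dis
      (by
        rintro i x ⟨y, hy, -⟩
        exact ⟨y, hy⟩)
      hg1 hg2
      (by
        intro i x j hj h
        have h1 : (M : ℝ) ≤ 4 * j := by exact_mod_cast hBO.len i x j hj h
        linarith)
      hmk hlinH
      (by
        intro v
        rw [← dg_card]
        have := hdR v
        exact_mod_cast this)
    obtain ⟨hl0, hl1, hl2⟩ := hlo (lse f D) hlin
    have hDO : ∀ i x y, D i x = some y → O x y := by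
      intro i x y h
      rcases hout.arc i x y h with h1 | ⟨-, ⟨g, hg⟩, -⟩
      · exact hor i x y h1
      · exact hg.1
    refine ⟨n, TT R s ω η, f, D, both s η f, Z, X, aY, aP, hn1, hn2, ?_, ?_, ?_, ?_⟩
    · refine ⟨hSt.c4, fun v => ⟨hSt.lo v, hSt.hi v⟩, hTR, hdT, hBO.inj, hsub, ?_, hout.inj,
        ?_, ?_, hout.dis, ?_, ?_, ?_, hBO.one, ?_, ?_, ?_, hXs, ?_, ?_, ?_, hrec, hl1, hl2⟩
      · intro i i' x y h h'
        exact hO.asy _ _ (hor i x y h) (hor i' y x h')
      · intro i x j hj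
        exact hout.acy i x j hj
      · intro i x y h
        exact hoR _ _ (hDO i x y h)
      · intro i i' x y h h'
        exact hO.asy _ _ (hDO i x y h) (hDO i' y x h')
      · intro i x y h
        exact ⟨hout.dom i x y h, hout.ran i x y h⟩
      · exact r_T hO hBO.cov hout.unm
      · intro x hx i
        exact hBO.dom i x fun h => hx (hBO.sub i h)
      · intro x hx
        by_contra hne
        exact Finset.disjoint_left.1 hZQ hx (mem_filter.2 ⟨mem_univ _, hne⟩)
      · intro x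
        rw [hX, mem_union, mem_filter]
        constructor
        · rintro (h | h)
          · exact Or.inr h.2
          · exact Or.inl h
        · rintro (h | h)
          · exact Or.inr h
          · exact Or.inl ⟨mem_univ _, h⟩
      · exact x_T hN2 hO hXs2 hmS
      · rintro i y ⟨⟨z, hz, hz'⟩, ⟨x, hx, hx'⟩⟩
        refine ⟨z, x, hz, hx, ⟨hsub i y z hz, Or.inr hz'⟩, ⟨hsub i x y hx, Or.inr hx'⟩⟩
      · exact cd_le hN2 hn1 hO hor hout hbo hsw1 hsw2 hl0
    · exact new_ct2 hN hδ hA hQ hct2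
    · intro v
      have h1 : ((TT R s ω η ⊓ E).neighborSet v) ⊆
          {y | E.Adj v y ∧ typ K s (ω s(v, y)) ≠ none} ∪ {y | E.Adj v y ∧ mkd s η v y} := by
        intro y hy
        have h2 : (TT R s ω η).Adj v y ∧ E.Adj v y := hy
        rcases h2.1.2 with h3 | h3
        · exact Or.inl ⟨h2.2, h3⟩
        · exact Or.inr ⟨h2.2, h3⟩
      have h2 : dg (TT R s ω η ⊓ E) v ≤ _ :=
        (Set.ncard_le_ncard h1 (Set.toFinite _)).trans (Set.ncard_union_le _ _)
      have h3 := hE1 v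
      have h4 := hE2 v
      omega
    · intro x
      have h1 : ({y | R.Adj x y ∧ ∃ z, (TT R s ω η ⊓ E).Adj y z} : Set V) ⊆
          {y | R.Adj x y ∧ ∃ z, E.Adj y z ∧ typ K s (ω s(y, z)) ≠ none} ∪
            {y | R.Adj x y ∧ ∃ z, E.Adj y z ∧ mkd s η y z} := by
        rintro y ⟨hy, z, hz⟩
        have h2 : (TT R s ω η).Adj y z ∧ E.Adj y z := hz
        rcases h2.1.2 with h3 | h3
        · exact Or.inl ⟨hy, z, h2.2, h3⟩
        · exact Or.inr ⟨hy, z, h2.2, h3⟩
      have h2 := (Set.ncard_le_ncard h1 (Set.toFinite _)).trans (Set.ncard_union_le _ _)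
      have h3 : ({y | R.Adj x y ∧ ∃ z, (TT R s ω η ⊓ E).Adj y z}.ncard : ℝ) ≤
          ({y | R.Adj x y ∧ ∃ z, E.Adj y z ∧ typ K s (ω s(y, z)) ≠ none}.ncard : ℝ) +
            ({y | R.Adj x y ∧ ∃ z, E.Adj y z ∧ mkd s η y z}.ncard : ℝ) := by exact_mod_cast h2
      have h4 := hE3 x
      have h5 := hE4 x
      linarith

end Pool.Agent.C4N.H39
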