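import Pool.Agent.Helper7_C4N.Rou6
import Pool.Agent.C4N.Stm2
import Pool.Agent.Helper82_C4K.Sw1

/-!
# RA, part 1: numbers, counting lemmas
-/

set_option autoImplicit false
set_option linter.unusedSectionVars false

open scoped BigOperators Classical

noncomputable section

namespace Pool.Agent.C4N.H39

open Finset
open Pool.Agent.C4W (outN inN NReg)
open Pool.Agent.C4N.H7

/-- further numbers of a round -/
structure RN2 (c : ℝ) (K k s : ℕ) : Prop where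
  q0 : 20000 * (K : ℝ) ^ (-(c / 2)) ≤ 1
  S : (K : ℝ) ^ (1 - c) + (k : ℝ) ^ (1 - c / 6) ≤ (k : ℝ) ^ (1 - c / 7)
  S2 : (K : ℝ) ^ (-(c / 2)) + (k : ℝ) ^ (-(c / 6)) ≤ (k : ℝ) ^ (-(c / 7))
  S3 : 80 * (k : ℝ) ^ (-(c / 7)) + (k : ℝ) ^ (-(c / 7 / 2)) ≤ 100 * (k : ℝ) ^ (-(c / 7 / 2))
  cd : 2 * (k : ℝ) ^ (0.99 : ℝ) + (k : ℝ) ^ (0.999 : ℝ) + s * (k : ℝ) ^ (-0.001 : ℝ) ≤
    6 * (((s : ℝ) / K) ^ 2 * s)

lemma rn2 (c : ℝ) (hc : 0 < c) (hc' : c ≤ 1 / 1000) : ∃ K0 : ℕ, ∀ K k s : ℕ, K0 ≤ K →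
    k = K + 2 → s = ss k → RN2 c K k s := by
  obtain ⟨x1, h11, h1⟩ := big (c / 2) 20000 (by linarith)
  obtain ⟨x2, h21, h2⟩ := big (c / 6 - c / 7) 3 (by linarith)
  obtain ⟨x3, h31, h3⟩ := big (0.0001) 10 (by norm_num)
  obtain ⟨K0, hK0⟩ := exists_nat_gt (max (max x1 x2) x3 + 2)
  refine ⟨K0, ?_⟩
  intro K k s hK hk hs
  have hKr : (K0 : ℝ) ≤ K := by exact_mod_cast hK
  have hkr : (k : ℝ) = K + 2 := by rw [hk]; push_cast; ring
  have m1 : x1 ≤ (K : ℝ) := by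
    have := le_max_left x1 x2
    have := le_max_left (max x1 x2) x3
    linarith
  have m2 : x2 ≤ (K : ℝ) := by
    have := le_max_right x1 x2
    have := le_max_left (max x1 x2) x3
    linarith
  have m3 : x3 ≤ (K : ℝ) := by
    have := le_max_right (max x1 x2) x3
    linarith
  have hK2 : (2 : ℝ) ≤ K := by
    have := le_max_right (max x1 x2) x3
    linarith
  have hKk : (K : ℝ) ≤ k := by linarith
  have hK1 : (1 : ℝ) ≤ K := by linarith
  have hk1 : (1 : ℝ) ≤ k := by linarith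
  have hK0' : (0 : ℝ) < K := by linarith
  have hk0 : (0 : ℝ) < k := by linarith
  have hk2 : (k : ℝ) ≤ 2 * K := by linarith
  have slo : (k : ℝ) ^ (1 - 1 / 10000 : ℝ) ≤ s := by
    rw [hs]; unfold ss; exact Nat.le_ceil _
  have shi : (s : ℝ) ≤ 2 * (k : ℝ) ^ (1 - 1 / 10000 : ℝ) := by
    have e1 : (s : ℝ) < (k : ℝ) ^ (1 - 1 / 10000 : ℝ) + 1 := by
      rw [hs]; unfold ss
      exact Nat.ceil_lt_add_one (Real.rpow_nonneg (by linarith) _)
    have e2 : (1 : ℝ) ≤ (k : ℝ) ^ (1 - 1 / 10000 : ℝ) := Real.one_le_rpow hk1 (by norm_num)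
    linarith
  have hcc : (K : ℝ) ^ (-(c / 2)) ≤ 2 * (k : ℝ) ^ (-(c / 2)) := by
    have e2 : (k : ℝ) ^ (c / 2) ≤ 2 * (K : ℝ) ^ (c / 2) := by
      calc (k : ℝ) ^ (c / 2) ≤ (2 * K) ^ (c / 2) :=
            Real.rpow_le_rpow hk0.le hk2 (by linarith)
        _ = 2 ^ (c / 2) * (K : ℝ) ^ (c / 2) := Real.mul_rpow (by norm_num) hK0'.le
        _ ≤ 2 ^ (1 : ℝ) * (K : ℝ) ^ (c / 2) := by
            apply mul_le_mul_of_nonneg_right _ (Real.rpow_nonneg hK0'.le _)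
            exact Real.rpow_le_rpow_of_exponent_le (by norm_num) (by linarith)
        _ = _ := by rw [Real.rpow_one]
    rw [Real.rpow_neg hK0'.le, Real.rpow_neg hk0.le, ← div_eq_mul_inv,
      le_div_iff₀ (Real.rpow_pos_of_pos hk0 _), ← div_eq_inv_mul,
      div_le_iff₀ (Real.rpow_pos_of_pos hK0' _)]
    exact e2
  refine ⟨?_, ?_, ?_, ?_, ?_⟩
  · rw [Real.rpow_neg hK0'.le, ← div_eq_mul_inv, div_le_one (Real.rpow_pos_of_pos hK0' _)]
    exact h1 K m1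
  · have e1 : (K : ℝ) ^ (1 - c) ≤ (k : ℝ) ^ (1 - c / 6) := by
      calc (K : ℝ) ^ (1 - c) ≤ (k : ℝ) ^ (1 - c) :=
            Real.rpow_le_rpow hK0'.le hKk (by linarith)
        _ ≤ _ := Real.rpow_le_rpow_of_exponent_le hk1 (by linarith)
    have e2 : 3 * (k : ℝ) ^ (1 - c / 6) ≤ (k : ℝ) ^ (1 - c / 7) := by
      apply pw_le hk1
      have : (1 - c / 7 - (1 - c / 6) : ℝ) = c / 6 - c / 7 := by ring
      rw [this]
      exact h2 k (by linarith)
    have e3 : 0 ≤ (k : ℝ) ^ (1 - c / 6) := Real.rpow_nonneg hk0.le _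
    linarith
  · have e3 : (k : ℝ) ^ (-(c / 2)) ≤ (k : ℝ) ^ (-(c / 6)) :=
      Real.rpow_le_rpow_of_exponent_le hk1 (by linarith)
    have e6 : 3 * (k : ℝ) ^ (-(c / 6)) ≤ (k : ℝ) ^ (-(c / 7)) := by
      apply pw_le hk1
      have : (-(c / 7) - -(c / 6) : ℝ) = c / 6 - c / 7 := by ring
      rw [this]
      exact h2 k (by linarith)
    linarith
  · have e1 : (k : ℝ) ^ (-(c / 7)) ≤ (k : ℝ) ^ (-(c / 7 / 2)) :=
      Real.rpow_le_rpow_of_exponent_le hk1 (by linarith)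
    have e2 : 0 ≤ (k : ℝ) ^ (-(c / 7 / 2)) := Real.rpow_nonneg hk0.le _
    linarith
  · -- everything against `k ^ 0.9995`
    have hx0 : 0 ≤ (k : ℝ) ^ (1 - 1 / 10000 : ℝ) := Real.rpow_nonneg hk0.le _
    have f1 : (k : ℝ) ^ (-1 / 10000 : ℝ) ≤ (s : ℝ) / K := by
      rw [le_div_iff₀ hK0']
      calc (k : ℝ) ^ (-1 / 10000 : ℝ) * K ≤ (k : ℝ) ^ (-1 / 10000 : ℝ) * k :=
            mul_le_mul_of_nonneg_left hKk (Real.rpow_nonneg hk0.le _)
        _ = (k : ℝ) ^ (1 - 1 / 10000 : ℝ) := by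
            nth_rewrite 2 [← Real.rpow_one (k : ℝ)]
            rw [← Real.rpow_add hk0]
            norm_num
        _ ≤ s := slo
    have f2 : (k : ℝ) ^ (0.9997 : ℝ) ≤ ((s : ℝ) / K) ^ 2 * s := by
      calc (k : ℝ) ^ (0.9997 : ℝ) =
            ((k : ℝ) ^ (-1 / 10000 : ℝ)) ^ 2 * (k : ℝ) ^ (1 - 1 / 10000 : ℝ) := by
            rw [← Real.rpow_natCast, ← Real.rpow_mul hk0.le, ← Real.rpow_add hk0]
            norm_num
        _ ≤ ((s : ℝ) / K) ^ 2 * s := by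
            apply mul_le_mul _ slo hx0 (by positivity)
            exact pow_le_pow_left₀ (Real.rpow_nonneg hk0.le _) f1 2
    have hb : ∀ a : ℝ, a ≤ 0.999 → 10 * (k : ℝ) ^ a ≤ (k : ℝ) ^ (0.9997 : ℝ) := by
      intro a ha
      apply pw_le hk1
      refine (h3 k (by linarith)).trans ?_
      exact Real.rpow_le_rpow_of_exponent_le hk1 (by linarith)
    have g1 := hb 0.99 (by norm_num)
    have g2 := hb 0.999 (by norm_num)
    have g3 : (s : ℝ) * (k : ℝ) ^ (-0.001 : ℝ) ≤ 2 * (k : ℝ) ^ (0.9989 : ℝ) := by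
      calc (s : ℝ) * (k : ℝ) ^ (-0.001 : ℝ) ≤
            2 * (k : ℝ) ^ (1 - 1 / 10000 : ℝ) * (k : ℝ) ^ (-0.001 : ℝ) :=
            mul_le_mul_of_nonneg_right shi (Real.rpow_nonneg hk0.le _)
        _ = 2 * (k : ℝ) ^ (0.9989 : ℝ) := by
            rw [mul_assoc, ← Real.rpow_add hk0]
            norm_num
    have g4 := hb 0.9989 (by norm_num)
    have g5 : 0 ≤ (k : ℝ) ^ (0.9997 : ℝ) := Real.rpow_nonneg hk0.le _
    linarith

/-- the path counts of the sampled graph -/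
lemma new_ct2 {C L : ℕ} {c δ : ℝ} {K k s : ℕ} (hN : RN C L c δ K k s) (hδ : 0 < δ)
    {A Q : ℝ} (hA : 1 ≤ A) (hQ : 1 ≤ Q) {V : Type} [Fintype V] {G : SimpleGraph V}
    (hc : Cnt (ind G) L ((K : ℝ) ^ (δ / 4) * ((K : ℝ) ^ (δ / (4 * (L + 1))) * A ^ L) ^ L)
      (41 * s) Q) :
    Cnt (ind G) L ((K : ℝ) ^ δ * A ^ (L * L)) (41 * s) Q := by
  have hK1 : (1 : ℝ) ≤ K := by exact_mod_cast hN.K1
  have hK0 : (0 : ℝ) < K := by linarith
  have hs0 : (0 : ℝ) ≤ s := Nat.cast_nonneg s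
  apply cnt_mono (le_refl G) _ _ _ (by positivity) hQ _ hc
  · positivity
  · positivity
  · linarith
  · have e1 : ((K : ℝ) ^ (δ / (4 * (L + 1))) * A ^ L) ^ L =
        (K : ℝ) ^ (δ / (4 * (L + 1)) * L) * A ^ (L * L) := by
      rw [mul_pow, ← pow_mul, Real.rpow_mul hK0.le, Real.rpow_natCast]
    have e2 : (K : ℝ) ^ (δ / 4) * (K : ℝ) ^ (δ / (4 * (L + 1)) * L) ≤ (K : ℝ) ^ (δ / 2) := by
      rw [← Real.rpow_add hK0]
      apply Real.rpow_le_rpow_of_exponent_le hK1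
      have hL : (0 : ℝ) ≤ L := Nat.cast_nonneg L
      have : δ / (4 * (L + 1)) * L ≤ δ / 4 := by
        rw [div_mul_eq_mul_div, div_le_div_iff₀ (by positivity) (by norm_num)]
        nlinarith
      linarith
    have hA0 : 0 ≤ A ^ (L * L) := by positivity
    rw [e1]
    calc 4 ^ L * ((K : ℝ) ^ (δ / 4) * ((K : ℝ) ^ (δ / (4 * (L + 1)) * L) * A ^ (L * L)))
        = 4 ^ L * ((K : ℝ) ^ (δ / 4) * (K : ℝ) ^ (δ / (4 * (L + 1)) * L)) * A ^ (L * L) := by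
          ring
      _ ≤ 4 ^ L * (K : ℝ) ^ (δ / 2) * A ^ (L * L) := by
          apply mul_le_mul_of_nonneg_right _ hA0
          exact mul_le_mul_of_nonneg_left e2 (by positivity)
      _ ≤ (K : ℝ) ^ δ * A ^ (L * L) := mul_le_mul_of_nonneg_right hN.ct hA0

variable {V : Type} [Fintype V]

/-- the set `S` -/
lemma s_sp' {c : ℝ} {K k s M n : ℕ} (hN : RN2 c K k s) {R : SimpleGraph V}
    {O : V → V → Prop} {ω : Sym2 V → Fin K} {m : Fin 40 → ℕ} {Z : Finset V}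
    {Zc : Fin n → Finset V} {f : Fin n → V → Option V}
    (hBO : BO V k s M (c / 3) R (Rf O s ω) (Og O s ω) m n f Z Zc)
    (hsp : ∀ v, ({u | R.Adj v u ∧ dg R u ≠ 2 * K}.ncard : ℝ) ≤ (K : ℝ) ^ (1 - c)) (v : V) :
    ({u | R.Adj v u ∧ u ∈ (univ.filter fun u => dg R u ≠ 2 * K) ∪ Z}.ncard : ℝ) ≤
      (k : ℝ) ^ (1 - c / 7) := by
  have h1 : ({u | R.Adj v u ∧ u ∈ (univ.filter fun u => dg R u ≠ 2 * K) ∪ Z} : Set V) ⊆
      {u | R.Adj v u ∧ dg R u ≠ 2 * K} ∪ {y | R.Adj v y ∧ y ∈ Z} := by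
    rintro u ⟨h1, h2⟩
    rw [mem_union, mem_filter] at h2
    rcases h2 with h2 | h2
    · exact Or.inl ⟨h1, h2.2⟩
    · exact Or.inr ⟨h1, h2⟩
  have h2 := (Set.ncard_le_ncard h1 (Set.toFinite _)).trans (Set.ncard_union_le _ _)
  have h3 : ({u | R.Adj v u ∧ u ∈ (univ.filter fun u => dg R u ≠ 2 * K) ∪ Z}.ncard : ℝ) ≤
      ({u | R.Adj v u ∧ dg R u ≠ 2 * K}.ncard : ℝ) + ({y | R.Adj v y ∧ y ∈ Z}.ncard : ℝ) := by
    exact_mod_cast h2
  have h4 := hBO.d2 v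
  rw [show (c / 3 / 2 : ℝ) = c / 6 by ring] at h4
  have h5 := hN.S
  have h6 := hsp v
  linarith

lemma s_sp2' {c : ℝ} {K k s M n : ℕ} (hN : RN2 c K k s) {R : SimpleGraph V}
    {O : V → V → Prop} {ω : Sym2 V → Fin K} {m : Fin 40 → ℕ} {Z : Finset V}
    {Zc : Fin n → Finset V} {f : Fin n → V → Option V}
    (hBO : BO V k s M (c / 3) R (Rf O s ω) (Og O s ω) m n f Z Zc)
    (hopt : ∀ g x, ((univ.filter fun y => (x, y) ∈ Og O s ω g ∧ dg R y ≠ 2 * K).card : ℝ) ≤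
        s * (K : ℝ) ^ (-(c / 2)) ∧
      ((univ.filter fun y => (y, x) ∈ Og O s ω g ∧ dg R y ≠ 2 * K).card : ℝ) ≤
        s * (K : ℝ) ^ (-(c / 2))) (g : Fin 40) (x : V) :
    ((outN (Og O s ω g) x ∩ ((univ.filter fun u => dg R u ≠ 2 * K) ∪ Z)).card : ℝ) ≤
        s * (k : ℝ) ^ (-(c / 7)) ∧
      ((inN (Og O s ω g) x ∩ ((univ.filter fun u => dg R u ≠ 2 * K) ∪ Z)).card : ℝ) ≤
        s * (k : ℝ) ^ (-(c / 7)) := by
  have hs0 : (0 : ℝ) ≤ s := Nat.cast_nonneg s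
  have h4 := hBO.d3 g x
  rw [show (-(c / 3 / 2) : ℝ) = -(c / 6) by ring] at h4
  have h5 : (s : ℝ) * (K : ℝ) ^ (-(c / 2)) + s * (k : ℝ) ^ (-(c / 6)) ≤
      s * (k : ℝ) ^ (-(c / 7)) := by
    rw [← mul_add]
    exact mul_le_mul_of_nonneg_left hN.S2 hs0
  have h6 := hopt g x
  constructor
  · have h1 : outN (Og O s ω g) x ∩ ((univ.filter fun u => dg R u ≠ 2 * K) ∪ Z) ⊆
        (univ.filter fun y => (x, y) ∈ Og O s ω g ∧ dg R y ≠ 2 * K) ∪
          (outN (Og O s ω g) x ∩ Z) := by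
      intro u hu
      rw [mem_inter, mem_union, mem_filter] at hu
      rw [mem_union, mem_inter, mem_filter]
      obtain ⟨h1, h2⟩ := hu
      rcases h2 with h2 | h2
      · left
        have h7 := h1
        unfold outN at h7
        rw [mem_filter] at h7
        exact ⟨mem_univ _, h7.2, h2.2⟩
      · exact Or.inr ⟨h1, h2⟩
    have h2 : ((outN (Og O s ω g) x ∩ ((univ.filter fun u => dg R u ≠ 2 * K) ∪ Z)).card : ℝ) ≤
        ((univ.filter fun y => (x, y) ∈ Og O s ω g ∧ dg R y ≠ 2 * K).card : ℝ) +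
          ((outN (Og O s ω g) x ∩ Z).card : ℝ) := by
      exact_mod_cast (Finset.card_le_card h1).trans (Finset.card_union_le _ _)
    linarith [h6.1, h4.1]
  · have h1 : inN (Og O s ω g) x ∩ ((univ.filter fun u => dg R u ≠ 2 * K) ∪ Z) ⊆
        (univ.filter fun y => (y, x) ∈ Og O s ω g ∧ dg R y ≠ 2 * K) ∪
          (inN (Og O s ω g) x ∩ Z) := by
      intro u hu
      rw [mem_inter, mem_union, mem_filter] at hu
      rw [mem_union, mem_inter, mem_filter]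
      obtain ⟨h1, h2⟩ := hu
      rcases h2 with h2 | h2
      · left
        have h7 := h1
        unfold inN at h7
        rw [mem_filter] at h7
        exact ⟨mem_univ _, h7.2, h2.2⟩
      · exact Or.inr ⟨h1, h2⟩
    have h2 : ((inN (Og O s ω g) x ∩ ((univ.filter fun u => dg R u ≠ 2 * K) ∪ Z)).card : ℝ) ≤
        ((univ.filter fun y => (y, x) ∈ Og O s ω g ∧ dg R y ≠ 2 * K).card : ℝ) +
          ((inN (Og O s ω g) x ∩ Z).card : ℝ) := by
      exact_mod_cast (Finset.card_le_card h1).trans (Finset.card_union_le _ _)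
    linarith [h6.2, h4.2]

/-- the input of the base: `Z` avoids the vertices of wrong degree -/
lemma q0_le {c : ℝ} {K k s : ℕ} (hN : RN2 c K k s) {R : SimpleGraph V}
    {O : V → V → Prop} {ω : Sym2 V → Fin K}
    (hopt : ∀ g x, ((univ.filter fun y => (x, y) ∈ Og O s ω g ∧ dg R y ≠ 2 * K).card : ℝ) ≤
        s * (K : ℝ) ^ (-(c / 2)) ∧
      ((univ.filter fun y => (y, x) ∈ Og O s ω g ∧ dg R y ≠ 2 * K).card : ℝ) ≤
        s * (K : ℝ) ^ (-(c / 2))) (g : Fin 40) (x : V) :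
    20000 * ((outN (Og O s ω g) x) ∩ (univ.filter fun u => dg R u ≠ 2 * K)).card ≤ s ∧
      20000 * ((inN (Og O s ω g) x) ∩ (univ.filter fun u => dg R u ≠ 2 * K)).card ≤ s := by
  have hs0 : (0 : ℝ) ≤ s := Nat.cast_nonneg s
  have h6 := hopt g x
  have h0 := hN.q0
  have h7 : (s : ℝ) * (20000 * (K : ℝ) ^ (-(c / 2))) ≤ s * 1 := mul_le_mul_of_nonneg_left h0 hs0
  constructor
  · have h1 : outN (Og O s ω g) x ∩ (univ.filter fun u => dg R u ≠ 2 * K) ⊆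
        (univ.filter fun y => (x, y) ∈ Og O s ω g ∧ dg R y ≠ 2 * K) := by
      intro u hu
      rw [mem_inter, mem_filter] at hu
      rw [mem_filter]
      obtain ⟨h1, h2⟩ := hu
      unfold outN at h1
      rw [mem_filter] at h1
      exact ⟨mem_univ _, h1.2, h2.2⟩
    have h2 : ((outN (Og O s ω g) x ∩ (univ.filter fun u => dg R u ≠ 2 * K)).card : ℝ) ≤
        ((univ.filter fun y => (x, y) ∈ Og O s ω g ∧ dg R y ≠ 2 * K).card : ℝ) := by
      exact_mod_cast Finset.card_le_card h1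
    have h3 : 20000 * ((outN (Og O s ω g) x ∩ (univ.filter fun u => dg R u ≠ 2 * K)).card : ℝ) ≤
        s := by linarith [h6.1]
    exact_mod_cast h3
  · have h1 : inN (Og O s ω g) x ∩ (univ.filter fun u => dg R u ≠ 2 * K) ⊆
        (univ.filter fun y => (y, x) ∈ Og O s ω g ∧ dg R y ≠ 2 * K) := by
      intro u hu
      rw [mem_inter, mem_filter] at hu
      rw [mem_filter]
      obtain ⟨h1, h2⟩ := hu
      unfold inN at h1
      rw [mem_filter] at h1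
      exact ⟨mem_univ _, h1.2, h2.2⟩
    have h2 : ((inN (Og O s ω g) x ∩ (univ.filter fun u => dg R u ≠ 2 * K)).card : ℝ) ≤
        ((univ.filter fun y => (y, x) ∈ Og O s ω g ∧ dg R y ≠ 2 * K).card : ℝ) := by
      exact_mod_cast Finset.card_le_card h1
    have h3 : 20000 * ((inN (Og O s ω g) x ∩ (univ.filter fun u => dg R u ≠ 2 * K)).card : ℝ) ≤
        s := by linarith [h6.2]
    exact_mod_cast h3

end Pool.Agent.C4N.H39
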