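import Pool.Agent.Helper39_C4N.Ra1

/-!
# RA, part 2: the candidates
-/

set_option autoImplicit false
set_option linter.unusedSectionVars false

open scoped BigOperators Classical

noncomputable section

namespace Pool.Agent.C4N.H39

open Finset
open Pool.Agent.C4W (outN inN NReg)
open Pool.Agent.C4N.H7
open Pool.Agent.C4K.H82 (chg)

variable {V : Type} [Fintype V]

/-- sparsity of `X` in the sampled graph -/
lemma x_T {c : ℝ} {K k s : ℕ} (hN : RN2 c K k s) {R : SimpleGraph V} {O : V → V → Prop}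
    {ω η : Sym2 V → Fin K} (hO : Ori R O) {X : Finset V}
    (hS2 : ∀ g x, ((outN (Og O s ω g) x ∩ X).card : ℝ) ≤ s * (k : ℝ) ^ (-(c / 7)) ∧
      ((inN (Og O s ω g) x ∩ X).card : ℝ) ≤ s * (k : ℝ) ^ (-(c / 7)))
    (hmk : ∀ x, ({y | R.Adj x y ∧ mkd s η x y ∧ y ∈ X}.ncard : ℝ) ≤
      s * (k : ℝ) ^ (-(c / 7 / 2))) (v : V) :
    ({u | (TT R s ω η).Adj v u ∧ u ∈ X}.ncard : ℝ) ≤ 100 * s * (k : ℝ) ^ (-(c / 7 / 2)) := by
  have hs0 : (0 : ℝ) ≤ s := Nat.cast_nonneg s
  obtain ⟨U, hU⟩ : ∃ U : Finset V, U = univ.filter fun u =>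
    (TT R s ω η).Adj v u ∧ u ∈ X := ⟨_, rfl⟩
  obtain ⟨U1, hU1⟩ : ∃ U1 : Finset V, U1 = U.filter fun u => typ K s (ω s(v, u)) ≠ none :=
    ⟨_, rfl⟩
  have hUc : (({u | (TT R s ω η).Adj v u ∧ u ∈ X} : Set V).ncard : ℝ) = U.card := by
    rw [hU, ← Set.ncard_coe_finset]
    congr 2
    ext u
    simp
  have hmU : ∀ u ∈ U, (TT R s ω η).Adj v u ∧ u ∈ X := by
    intro u hu
    rw [hU, mem_filter] at hu
    exact hu.2
  have c1 : (U1.card : ℝ) ≤ 80 * (s * (k : ℝ) ^ (-(c / 7))) := by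
    apply opt_card (ω := ω) (s := s) hO v (fun u => u ∈ X)
    · intro g W hW1 hW2
      rcases hW2 with hW2 | hW2
      · refine le_trans ?_ (hS2 g v).1
        exact_mod_cast Finset.card_le_card (fun u hu => mem_inter.2 ⟨hW2 hu, hW1 u hu⟩)
      · refine le_trans ?_ (hS2 g v).2
        exact_mod_cast Finset.card_le_card (fun u hu => mem_inter.2 ⟨hW2 hu, hW1 u hu⟩)
    · intro u hu
      rw [hU1, mem_filter] at hu
      exact ⟨(hmU u hu.1).1.1, hu.2, (hmU u hu.1).2⟩
  have c2 : ((U \ U1).card : ℝ) ≤ s * (k : ℝ) ^ (-(c / 7 / 2)) := by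
    refine le_trans ?_ (hmk v)
    have h3 := card_le_nc (U \ U1) {y | R.Adj v y ∧ mkd s η v y ∧ y ∈ X} (by
      intro u hu
      rw [mem_sdiff] at hu
      have h4 := hmU u hu.1
      refine ⟨h4.1.1, ?_, h4.2⟩
      rcases h4.1.2 with h | h
      · exact absurd (by rw [hU1, mem_filter]; exact ⟨hu.1, h⟩) hu.2
      · exact h)
    exact_mod_cast h3
  have h3 : (U.card : ℝ) ≤ U1.card + (U \ U1).card := by
    have h4 : U ⊆ U1 ∪ (U \ U1) := by
      intro u hu
      rw [mem_union, mem_sdiff]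
      by_cases h : u ∈ U1
      · exact Or.inl h
      · exact Or.inr ⟨hu, h⟩
    exact_mod_cast (Finset.card_le_card h4).trans (Finset.card_union_le _ _)
  rw [hUc]
  have h5 := mul_le_mul_of_nonneg_left hN.S3 hs0
  linarith

/-- the edges in no class are sampled -/
lemma r_T {K s n : ℕ} {R : SimpleGraph V} {O : V → V → Prop} {ω η : Sym2 V → Fin K}
    {f D : Fin n → V → Option V} (hO : Ori R O)
    (hcov : ∀ p ∈ Rf O s ω, ∃ i, f i p.1 = some p.2)
    (hun : ∀ i x, ¬ Mk s η f i x → D i x = f i x) (x y : V) (hxy : R.Adj x y)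
    (h : ∀ i, D i x ≠ some y ∧ D i y ≠ some x) : (TT R s ω η).Adj x y := by
  have key : ∀ x y, O x y → (∀ i, D i x ≠ some y) →
      (typ K s (ω s(x, y)) ≠ none ∨ mkd s η x y) := by
    intro x y hxy hF
    by_cases ht : typ K s (ω s(x, y)) = none
    · right
      obtain ⟨i, hi⟩ := hcov (x, y) ⟨hxy, ht⟩
      by_contra hm
      have h1 : ¬ Mk s η f i x := by
        rintro ⟨y', h2, h3⟩
        have h4 : some y = some y' := by rw [← h2]; exact hi.symm
        rw [Option.some.injEq] at h4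
        rw [← h4] at h3
        exact hm h3
      have h5 := hun i x h1
      exact hF i (h5.trans hi)
    · exact Or.inl ht
  refine ⟨hxy, ?_⟩
  rcases (hO.adj x y).1 hxy with h1 | h1
  · exact key x y h1 fun i => (h i).1
  · have h2 := key y x h1 fun i => (h i).2
    rw [Sym2.eq_swap]
    rcases h2 with h3 | h3
    · exact Or.inl h3
    · right
      unfold mkd at h3 ⊢
      rw [Sym2.eq_swap]
      exact h3

/-- pool edges are sampled -/
lemma pool_T {K s n : ℕ} {R : SimpleGraph V} {O : V → V → Prop} {ω η : Sym2 V → Fin K}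
    {f : Fin n → V → Option V} (hO : Ori R O) {v y : V}
    (h : pool (Og O s ω) f v y ∨ pool (Og O s ω) f y v) : (TT R s ω η).Adj v y := by
  rcases h with ⟨⟨g, hg⟩, -⟩ | ⟨⟨g, hg⟩, -⟩
  · refine ⟨(hO.adj v y).2 (Or.inl hg.1), Or.inl ?_⟩
    intro h
    have h2 : typ K s (ω s(v, y)) = some g := hg.2
    rw [h] at h2
    exact absurd h2 (by simp)
  · refine ⟨(hO.adj v y).2 (Or.inr hg.1), Or.inl ?_⟩
    intro h
    have h2 : typ K s (ω s(y, v)) = some g := hg.2
    rw [Sym2.eq_swap, h] at h2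
    exact absurd h2 (by simp)

/-- few pool edges at `v` are used by the new classes -/
lemma b1_le {K s n : ℕ} {R : SimpleGraph V} {O : V → V → Prop} {ω η : Sym2 V → Fin K}
    {f D : Fin n → V → Option V} {C0 : ℕ} (hO : Ori R O)
    (hor : ∀ i x y, f i x = some y → O x y)
    (hout : C4K.Out (fun i => ⟨R.Adj, pool (Og O s ω) f, f i, Mk s η f i⟩) C0 D) (v : V)
    (B : Finset V) (hB : ∀ y ∈ B, (pool (Og O s ω) f v y ∨ pool (Og O s ω) f y v) ∧
      ∃ c, D c v = some y ∨ D c y = some v) :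
    B.card ≤ 2 * (univ.filter fun c => chg (fun i => ⟨R.Adj, pool (Og O s ω) f, f i,
      Mk s η f i⟩) D c v).card := by
  obtain ⟨S, hS⟩ : ∃ S : Finset (Fin n), S = (univ.filter fun c =>
    chg (fun i => ⟨R.Adj, pool (Og O s ω) f, f i, Mk s η f i⟩) D c v) := ⟨_, rfl⟩
  rw [← hS]
  have h1 : B ⊆ (S.biUnion fun c => univ.filter fun y => D c v = some y) ∪
      (S.biUnion fun c => univ.filter fun y => D c y = some v) := by
    intro y hy
    obtain ⟨hp, c, hc⟩ := hB y hy
    have hno : f c v ≠ some y ∧ f c y ≠ some v := by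
      constructor
      · intro h
        rcases hp with hp | ⟨⟨g, hg⟩, -⟩
        · exact hp.2 c h
        · exact hO.asy _ _ hg.1 (hor c v y h)
      · intro h
        rcases hp with ⟨⟨g, hg⟩, -⟩ | hp
        · exact hO.asy _ _ hg.1 (hor c y v h)
        · exact hp.2 c h
    rw [mem_union, mem_biUnion, mem_biUnion]
    rcases hc with hc | hc
    · left
      refine ⟨c, ?_, by rw [mem_filter]; exact ⟨mem_univ _, hc⟩⟩
      rw [hS, mem_filter]
      refine ⟨mem_univ _, Or.inl ?_⟩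
      intro h
      exact hno.1 (h.symm.trans hc)
    · right
      refine ⟨c, ?_, by rw [mem_filter]; exact ⟨mem_univ _, hc⟩⟩
      rw [hS, mem_filter]
      obtain ⟨x', hx'⟩ := hout.ran c y v hc
      refine ⟨mem_univ _, Or.inr ⟨x', hx', ?_⟩⟩
      intro h
      have h2 := hout.inj c x' y v h hc
      rw [h2] at hx'
      exact hno.2 hx'
  have h2 : (S.biUnion fun c => univ.filter fun y => D c v = some y).card ≤ S.card := by
    refine Finset.card_biUnion_le.trans ?_
    calc ∑ c ∈ S, (univ.filter fun y => D c v = some y).card ≤ ∑ _c ∈ S, 1 := by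
          apply Finset.sum_le_sum
          intro c _
          rw [Finset.card_le_one]
          intro a ha b hb
          rw [mem_filter] at ha hb
          exact Option.some.inj (ha.2.symm.trans hb.2)
      _ = S.card := by rw [Finset.sum_const, smul_eq_mul, mul_one]
  have h3 : (S.biUnion fun c => univ.filter fun y => D c y = some v).card ≤ S.card := by
    refine Finset.card_biUnion_le.trans ?_
    calc ∑ c ∈ S, (univ.filter fun y => D c y = some v).card ≤ ∑ _c ∈ S, 1 := by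
          apply Finset.sum_le_sum
          intro c _
          rw [Finset.card_le_one]
          intro a ha b hb
          rw [mem_filter] at ha hb
          exact hout.inj c a b v ha.2 hb.2
      _ = S.card := by rw [Finset.sum_const, smul_eq_mul, mul_one]
  have h4 := (Finset.card_le_card h1).trans (Finset.card_union_le _ _)
  omega

/-- the candidates -/
lemma cd_le {c : ℝ} {K k s n : ℕ} (hN : RN2 c K k s) (hn : n + 11 * s ≤ K)
    {R : SimpleGraph V} {O : V → V → Prop} {ω η : Sym2 V → Fin K}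
    {f D : Fin n → V → Option V} {C0 : ℕ} (hO : Ori R O)
    (hor : ∀ i x y, f i x = some y → O x y)
    (hout : C4K.Out (fun i => ⟨R.Adj, pool (Og O s ω) f, f i, Mk s η f i⟩) C0 D)
    (hb : ∀ i v, ((s : ℝ) / K) ^ 2 * ((K : ℝ) - n) ≤
      ({y | (pool (Og O s ω) f v y ∨ pool (Og O s ω) f y v) ∧ both s η f i y}.ncard : ℝ))
    (h1 : ∀ v, ((univ.filter fun c => chg (fun i => ⟨R.Adj, pool (Og O s ω) f, f i,
      Mk s η f i⟩) D c v).card : ℝ) ≤ (k : ℝ) ^ (0.99 : ℝ))
    (h2 : ∀ c v, ((univ.filter fun y => R.Adj v y ∧ chg (fun i => ⟨R.Adj, pool (Og O s ω) f, f i,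
      Mk s η f i⟩) D c y).card : ℝ) ≤ (k : ℝ) ^ (0.999 : ℝ))
    (h3 : ∀ v, (((univ : Finset (Fin n × V)).filter fun x => (TT R s ω η).Adj v x.2 ∧
      lse f D x.1 x.2).card : ℝ) ≤ s * (k : ℝ) ^ (-0.001 : ℝ)) (i : Fin n) (v : V) :
    5 * ((s : ℝ) / K) ^ 2 * s ≤ ({y | R.Adj v y ∧
      (∀ c, D c v ≠ some y ∧ D c y ≠ some v) ∧ both s η f i y ∧ D i y = f i y ∧
      (∀ x, f i x = some y → D i x = some y) ∧ ∀ c, ¬ lse f D c y}.ncard : ℝ) := by
  obtain ⟨A, hA⟩ : ∃ A : Finset V, A = univ.filter fun y =>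
    (pool (Og O s ω) f v y ∨ pool (Og O s ω) f y v) ∧ both s η f i y := ⟨_, rfl⟩
  obtain ⟨B1, hB1⟩ : ∃ B1 : Finset V, B1 = univ.filter fun y =>
    (pool (Og O s ω) f v y ∨ pool (Og O s ω) f y v) ∧
      ∃ c, D c v = some y ∨ D c y = some v := ⟨_, rfl⟩
  obtain ⟨B2, hB2⟩ : ∃ B2 : Finset V, B2 = univ.filter fun y => R.Adj v y ∧
    chg (fun i => ⟨R.Adj, pool (Og O s ω) f, f i, Mk s η f i⟩) D i y := ⟨_, rfl⟩
  obtain ⟨B3, hB3⟩ : ∃ B3 : Finset V, B3 = univ.filter fun y => (TT R s ω η).Adj v y ∧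
    ∃ c, lse f D c y := ⟨_, rfl⟩
  obtain ⟨G, hG⟩ : ∃ G : Finset V, G = univ.filter fun y => R.Adj v y ∧
      (∀ c, D c v ≠ some y ∧ D c y ≠ some v) ∧ both s η f i y ∧ D i y = f i y ∧
      (∀ x, f i x = some y → D i x = some y) ∧ ∀ c, ¬ lse f D c y := ⟨_, rfl⟩
  have hGc : (({y | R.Adj v y ∧
      (∀ c, D c v ≠ some y ∧ D c y ≠ some v) ∧ both s η f i y ∧ D i y = f i y ∧
      (∀ x, f i x = some y → D i x = some y) ∧ ∀ c, ¬ lse f D c y} : Set V).ncard : ℝ) =
      G.card := by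
    rw [hG, ← Set.ncard_coe_finset]
    congr 2
    ext u
    simp
  have hAc : (({y | (pool (Og O s ω) f v y ∨ pool (Og O s ω) f y v) ∧
      both s η f i y} : Set V).ncard : ℝ) = A.card := by
    rw [hA, ← Set.ncard_coe_finset]
    congr 2
    ext u
    simp
  have hcov : A ⊆ G ∪ (B1 ∪ (B2 ∪ B3)) := by
    intro y hy
    rw [hA, mem_filter] at hy
    obtain ⟨-, hp, hbo⟩ := hy
    have hT : (TT R s ω η).Adj v y := pool_T hO hp
    rw [mem_union, mem_union, mem_union]
    by_cases c1 : ∃ c, D c v = some y ∨ D c y = some v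
    · right; left
      rw [hB1, mem_filter]
      exact ⟨mem_univ _, hp, c1⟩
    · by_cases c2 : chg (fun i => ⟨R.Adj, pool (Og O s ω) f, f i, Mk s η f i⟩) D i y
      · right; right; left
        rw [hB2, mem_filter]
        exact ⟨mem_univ _, hT.1, c2⟩
      · by_cases c3 : ∃ c, lse f D c y
        · right; right; right
          rw [hB3, mem_filter]
          exact ⟨mem_univ _, hT, c3⟩
        · left
          rw [hG, mem_filter]
          push Not at c1 c3
          unfold chg at c2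
          push Not at c2
          exact ⟨mem_univ _, hT.1, c1, hbo, c2.1, c2.2, c3⟩
  have e1 : (B1.card : ℝ) ≤ 2 * (k : ℝ) ^ (0.99 : ℝ) := by
    have h4 := b1_le hO hor hout v B1 (by
      intro y hy
      rw [hB1, mem_filter] at hy
      exact hy.2)
    have h5 : (B1.card : ℝ) ≤ 2 * ((univ.filter fun c => chg (fun i => ⟨R.Adj,
      pool (Og O s ω) f, f i, Mk s η f i⟩) D c v).card : ℝ) := by exact_mod_cast h4
    linarith [h1 v]
  have e2 : (B2.card : ℝ) ≤ (k : ℝ) ^ (0.999 : ℝ) := by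
    rw [hB2]
    exact h2 i v
  have e3 : (B3.card : ℝ) ≤ s * (k : ℝ) ^ (-0.001 : ℝ) := by
    refine le_trans ?_ (h3 v)
    have h4 : B3 ⊆ ((univ : Finset (Fin n × V)).filter fun x => (TT R s ω η).Adj v x.2 ∧
        lse f D x.1 x.2).image Prod.snd := by
      intro y hy
      rw [hB3, mem_filter] at hy
      obtain ⟨-, h5, c, h6⟩ := hy
      rw [mem_image]
      exact ⟨(c, y), by rw [mem_filter]; exact ⟨mem_univ _, h5, h6⟩, rfl⟩
    exact_mod_cast (Finset.card_le_card h4).trans Finset.card_image_le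
  have e4 : (A.card : ℝ) ≤ G.card + (B1.card + (B2.card + B3.card)) := by
    have f1 := (Finset.card_le_card hcov).trans (Finset.card_union_le _ _)
    have f2 := Finset.card_union_le B1 (B2 ∪ B3)
    have f3 := Finset.card_union_le B2 B3
    have f4 : A.card ≤ G.card + (B1.card + (B2.card + B3.card)) := by omega
    exact_mod_cast f4
  have e5 := hb i v
  rw [hAc] at e5
  have e6 : ((s : ℝ) / K) ^ 2 * (11 * s) ≤ ((s : ℝ) / K) ^ 2 * ((K : ℝ) - n) := by
    apply mul_le_mul_of_nonneg_left _ (by positivity)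
    have : (n : ℝ) + 11 * s ≤ K := by exact_mod_cast hn
    linarith
  have e7 := hN.cd
  rw [hGc]
  have e8 : 5 * ((s : ℝ) / K) ^ 2 * s = 5 * (((s : ℝ) / K) ^ 2 * s) := by ring
  have e9 : ((s : ℝ) / K) ^ 2 * (11 * s) = 11 * (((s : ℝ) / K) ^ 2 * s) := by ring
  rw [e8]
  rw [e9] at e6
  linarith

end Pool.Agent.C4N.H39
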